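import Mathlib

set_option autoImplicit false

namespace Pool.Agent.Results.MP_633bfc_co.Complement
open Finset
open scoped Classical

/-- the edges of `G` with exactly one endpoint in `W` -/
noncomputable def bdry {V : Type} [Fintype V] (G : SimpleGraph V) (W : Finset V) : Finset (Sym2 V) :=
  G.edgeFinset.filter fun e => ∃ u ∈ W, ∃ v ∉ W, e = s(u, v)

/-- the vertices outside `W` joined to a vertex of `W` by an edge of `F` -/
noncomputable def nbr {V : Type} [Fintype V] (F : Finset (Sym2 V)) (W : Finset V) : Finset V :=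
  univ.filter fun v => v ∉ W ∧ ∃ u ∈ W, s(u, v) ∈ F

/-- the bipartition polynomial in the variables `x = X 0`, `y = X 1`, `z = X 2` -/
noncomputable def bip {V : Type} [Fintype V] (G : SimpleGraph V) : MvPolynomial (Fin 3) ℤ :=
  ∑ W : Finset V, MvPolynomial.X 0 ^ W.card * ∑ F ∈ (bdry G W).powerset,
    MvPolynomial.X 1 ^ (nbr F W).card * MvPolynomial.X 2 ^ F.card

variable {V : Type} [Fintype V]

noncomputable def dg (G : SimpleGraph V) (W : Finset V) (v : V) : ℕ := (W.filter (G.Adj v)).card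

theorem card_avoid (G : SimpleGraph V) (W U : Finset V) (hU : U ⊆ Wᶜ) :
    ((bdry G W).filter fun e => ∀ v ∈ U, v ∉ e).card = ∑ v ∈ Wᶜ \ U, dg G W v := by
  have : ((bdry G W).filter fun e => ∀ v ∈ U, v ∉ e) =
      (Wᶜ \ U).biUnion fun v => (W.filter (G.Adj v)).image fun u => s(u, v) := by
    ext e
    simp only [bdry, mem_filter, SimpleGraph.mem_edgeFinset, mem_biUnion, mem_sdiff, mem_compl,
      mem_image]
    constructor
    · rintro ⟨⟨h1, u, hu, v, hv, rfl⟩, h2⟩
      exact ⟨v, ⟨hv, fun h => h2 v h (Sym2.mem_mk_right _ _)⟩, u, ⟨hu, G.adj_symm h1⟩, rfl⟩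
    · rintro ⟨v, ⟨h1, h2⟩, u, ⟨h3, h4⟩, rfl⟩
      refine ⟨⟨h4.symm, u, h3, v, h1, rfl⟩, fun w hw h => ?_⟩
      rcases Sym2.mem_iff.1 h with rfl | rfl
      · exact mem_compl.1 (hU hw) h3
      · exact h2 hw
  rw [this, card_biUnion]
  · exact sum_congr rfl fun v _ => card_image_of_injective _ fun a b h => Sym2.congr_left.1 h
  · intro v hv w hw hvw
    refine disjoint_left.2 fun e h1 h2 => ?_
    obtain ⟨a, ha, rfl⟩ := mem_image.1 h1
    obtain ⟨b, hb, e⟩ := mem_image.1 h2
    rcases Sym2.eq_iff.1 e with e | e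
    · exact hvw e.2.symm
    · exact mem_compl.1 (mem_sdiff.1 hv).1 (e.1 ▸ (mem_filter.1 hb).1)

theorem inner (G : SimpleGraph V) (W : Finset V) (y z : ℝ) :
    ∑ F ∈ (bdry G W).powerset, y ^ (nbr F W).card * z ^ F.card =
      ∏ v ∈ Wᶜ, (1 - y + y * (1 + z) ^ dg G W v) := by
  have h1 : ∀ F ∈ (bdry G W).powerset, y ^ (nbr F W).card * z ^ F.card = ∑ U ∈ Wᶜ.powerset,
      (1 - y) ^ U.card * y ^ (Wᶜ \ U).card *
        if F ⊆ (bdry G W).filter fun e => ∀ v ∈ U, v ∉ e then z ^ F.card else 0 := by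
    intro F hF
    have h2 : y ^ (nbr F W).card =
        ∏ v ∈ Wᶜ, ((if v ∈ nbr F W then 0 else 1 - y) + y) := by
      rw [prod_congr rfl (g := fun v => if v ∈ nbr F W then y else 1)
        (fun v _ => by split_ifs <;> ring), prod_ite_mem, inter_eq_right.2, prod_const]
      exact fun v hv => mem_compl.2 (mem_filter.1 hv).2.1
    rw [h2, prod_add, sum_mul]
    refine sum_congr rfl fun U hU => ?_
    rw [prod_const]
    split_ifs with h
    · rw [prod_congr rfl (g := fun _ => 1 - y), prod_const]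
      intro v hv
      rw [if_neg]
      intro h3
      obtain ⟨-, u, -, h4⟩ := (mem_filter.1 h3).2
      exact (mem_filter.1 (h h4)).2 v hv (Sym2.mem_mk_right _ _)
    · obtain ⟨e, he, h3⟩ := not_subset.1 h
      have h4 := mem_powerset.1 hF he
      simp only [mem_filter, h4, true_and, not_forall, not_not] at h3
      obtain ⟨v, hv, h3⟩ := h3
      obtain ⟨-, a, ha, b, hb, rfl⟩ := mem_filter.1 h4
      have h5 := mem_compl.1 (mem_powerset.1 hU hv)
      obtain rfl : v = b := (Sym2.mem_iff.1 h3).resolve_left (fun e => h5 (e ▸ ha))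
      have h6 : v ∈ nbr F W := mem_filter.2 ⟨mem_univ _, hb, a, ha, he⟩
      rw [prod_eq_zero (f := fun v => if v ∈ nbr F W then 0 else 1 - y) hv (if_pos h6)]
      simp
  rw [sum_congr rfl h1, sum_comm, prod_add]
  refine sum_congr rfl fun U hU => ?_
  rw [← mul_sum, ← sum_filter, prod_const, prod_mul_distrib, prod_const, prod_pow_eq_pow_sum,
    ← card_avoid G W U (mem_powerset.1 hU), mul_assoc, ← prod_const (1 + z), prod_one_add]
  congr 2
  refine sum_congr ?_ fun _ _ => by simp
  ext F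
  simp only [mem_filter, mem_powerset, and_iff_right_iff_imp]
  exact fun h => h.trans (filter_subset _ _)

noncomputable def Q (G : SimpleGraph V) (k : ℕ) (y u : ℝ) : ℝ :=
  ∑ W : Finset V, if W.card = k then ∏ v ∈ Wᶜ, (1 - y + y * u ^ dg G W v) else 0

noncomputable def P (G : SimpleGraph V) (y u : ℝ) : Polynomial ℝ :=
  ∑ W : Finset V, Polynomial.monomial W.card (∏ v ∈ Wᶜ, (1 - y + y * u ^ dg G W v))

theorem coeff_P (G : SimpleGraph V) (y u : ℝ) (k : ℕ) : (P G y u).coeff k = Q G k y u := by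
  simp [P, Q, Polynomial.coeff_monomial]

theorem eval_bip (G : SimpleGraph V) (p : Fin 3 → ℝ) :
    MvPolynomial.eval p (MvPolynomial.map (Int.castRingHom ℝ) (bip G)) =
      (P G (p 1) (1 + p 2)).eval (p 0) := by
  simp only [bip, P, map_sum, map_mul, map_pow, MvPolynomial.map_X, MvPolynomial.eval_X, inner,
    Polynomial.eval_finsetSum, Polynomial.eval_monomial]
  exact sum_congr rfl fun _ _ => mul_comm _ _

theorem Q_compl (G : SimpleGraph V) (k : ℕ) (y u : ℝ) (hu : u ≠ 0) (hs : 1 - y + y * u ^ k ≠ 0) :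
    Q G k y u = (1 - y + y * u ^ k) ^ (Fintype.card V - k) *
      Q Gᶜ k (y * u ^ k / (1 - y + y * u ^ k)) u⁻¹ := by
  rw [Q, Q, mul_sum]
  refine sum_congr rfl fun W _ => ?_
  split_ifs with h
  · subst h
    rw [← card_compl, ← prod_const, ← prod_mul_distrib]
    refine prod_congr rfl fun v hv => ?_
    have h1 : W.card = dg G W v + dg Gᶜ W v := by
      rw [dg, dg, ← card_filter_add_card_filter_not (s := W) (G.Adj v)]
      congr 2
      ext w
      simp only [mem_filter, SimpleGraph.compl_adj, and_congr_right_iff, iff_and_self]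
      exact fun hw _ e => mem_compl.1 hv (e ▸ hw)
    generalize hs' : 1 - y + y * u ^ W.card = s at hs
    have h2 : 1 - y = s - y * u ^ W.card := by linarith
    rw [h2, h1, pow_add, inv_pow]
    field_simp
  · simp

theorem result (V V' : Type) [Fintype V] [Fintype V'] (G : SimpleGraph V) (H : SimpleGraph V')
    (h : bip Gᶜ = bip Hᶜ) : bip G = bip H := by
  have h1 : ∀ y u, P Gᶜ y u = P Hᶜ y u := by
    intro y u
    refine Polynomial.funext fun x => ?_
    have a := eval_bip Gᶜ ![x, y, u - 1]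
    have b := eval_bip Hᶜ ![x, y, u - 1]
    rw [h, b] at a
    simpa using a.symm
  have hn : Fintype.card V = Fintype.card V' := by
    have := congrArg (Polynomial.eval 1) (h1 0 0)
    simpa [P, Polynomial.eval_finsetSum] using this
  apply MvPolynomial.map_injective (Int.castRingHom ℝ) Int.cast_injective
  refine MvPolynomial.funext_set ![Set.univ, Set.Ioo 0 1, Set.Ioi 0] ?_ fun p hp => ?_
  · intro i
    fin_cases i
    · exact Set.infinite_univ
    · exact Set.Ioo_infinite zero_lt_one
    · exact Set.Ioi_infinite 0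
  · have h2 : p 1 ∈ Set.Ioo (0 : ℝ) 1 := hp 1 trivial
    have h3 : 0 < p 2 := hp 2 trivial
    rw [eval_bip, eval_bip]
    congr 1
    ext k
    have h4 : 1 - p 1 + p 1 * (1 + p 2) ^ k ≠ 0 := by
      have := h2.1
      have := sub_pos.2 h2.2
      positivity
    rw [coeff_P, coeff_P, Q_compl G k _ _ (by positivity) h4, Q_compl H k _ _ (by positivity) h4,
      ← coeff_P, ← coeff_P, h1, hn]

end Pool.Agent.Results.MP_633bfc_co.Complement
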